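import Pool.Agent.W711.HT.Stm2

/-!
# Fixed points depending analytically on a parameter
-/

set_option autoImplicit false

namespace Pool.Agent.W19.HTFix

open Filter Finset Topology Metric
open scoped Real

/-- the iteration from `0` -/
noncomputable def it (Φ : ℂ → ℂ → ℂ) : ℕ → ℂ → ℂ
  | 0 => fun _ => 0
  | n + 1 => fun ψ => Φ (it Φ n ψ) ψ

theorem task : Pool.Agent.W711.HT.S_FIX := by
  intro Φ r U hr hU hΦ h1 h2
  have hb : ∀ n, ∀ ψ ∈ U, ‖it Φ n ψ‖ ≤ r := by
    intro n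
    induction n with
    | zero => intro ψ hψ; simpa [it] using hr.le
    | succ n ih =>
      intro ψ hψ
      exact h1 _ (by simpa using ih ψ hψ) ψ hψ
  have hd : ∀ n, DifferentiableOn ℂ (it Φ n) U := by
    intro n
    induction n with
    | zero => exact differentiableOn_const _
    | succ n ih =>
      have : DifferentiableOn ℂ (fun ψ : ℂ => (it Φ n ψ, ψ)) U := ih.prodMk differentiableOn_id
      have h3 := hΦ.comp this (fun ψ hψ => ⟨by
        have := hb n ψ hψ
        simp only [mem_ball, dist_zero_right]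
        linarith, hψ⟩)
      exact h3
  have hs : ∀ n, ∀ ψ ∈ U, dist (it Φ n ψ) (it Φ (n + 1) ψ) ≤ r * (1 / 2) ^ n := by
    intro n
    induction n with
    | zero =>
      intro ψ hψ
      have := hb 1 ψ hψ
      have h0 : it Φ 0 ψ = 0 := rfl
      rw [h0, dist_zero_left]
      simpa using this
    | succ n ih =>
      intro ψ hψ
      have h3 := h2 (it Φ n ψ) (by simpa using hb n ψ hψ) (it Φ (n + 1) ψ)
        (by simpa using hb (n + 1) ψ hψ) ψ hψ
      have h4 := ih ψ hψ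
      rw [dist_eq_norm] at h4 ⊢
      have e1 : it Φ (n + 1) ψ - it Φ (n + 1 + 1) ψ = Φ (it Φ n ψ) ψ - Φ (it Φ (n + 1) ψ) ψ := rfl
      rw [e1, pow_succ]
      linarith
  have hlim : ∀ ψ : ℂ, ∃ z : ℂ, ψ ∈ U → Tendsto (fun n => it Φ n ψ) atTop (𝓝 z) := by
    intro ψ
    by_cases hψ : ψ ∈ U
    · obtain ⟨z, hz⟩ := cauchySeq_tendsto_of_complete
        (cauchySeq_of_le_geometric (1 / 2) r (by norm_num) (fun n => hs n ψ hψ))
      exact ⟨z, fun _ => hz⟩
    · exact ⟨0, fun h => absurd h hψ⟩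
  choose zs hzs using hlim
  have hu : TendstoUniformlyOn (fun n => it Φ n) zs atTop U := by
    rw [Metric.tendstoUniformlyOn_iff]
    intro ε hε
    have h5 : Tendsto (fun n : ℕ => r * (1 / 2 : ℝ) ^ n / (1 - 1 / 2)) atTop (𝓝 0) := by
      have := ((tendsto_pow_atTop_nhds_zero_of_lt_one (r := (1 / 2 : ℝ)) (by norm_num)
        (by norm_num)).const_mul r).div_const (1 - 1 / 2)
      simpa using this
    filter_upwards [h5.eventually (gt_mem_nhds hε)] with n hn ψ hψ
    have h6 := dist_le_of_le_geometric_of_tendsto (1 / 2) r (by norm_num) (fun n => hs n ψ hψ)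
      (hzs ψ hψ) n
    rw [dist_comm]
    exact lt_of_le_of_lt h6 hn
  have hzb : ∀ ψ ∈ U, ‖zs ψ‖ ≤ r := fun ψ hψ =>
    le_of_tendsto (hzs ψ hψ).norm (Eventually.of_forall fun n => hb n ψ hψ)
  have hfix : ∀ ψ ∈ U, Φ (zs ψ) ψ = zs ψ := by
    intro ψ hψ
    have h7 : Tendsto (fun n => it Φ (n + 1) ψ) atTop (𝓝 (zs ψ)) :=
      (hzs ψ hψ).comp (tendsto_add_atTop_nat 1)
    have h8 : Tendsto (fun n => it Φ (n + 1) ψ) atTop (𝓝 (Φ (zs ψ) ψ)) := by
      rw [tendsto_iff_norm_sub_tendsto_zero]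
      have h9 : Tendsto (fun n => 1 / 2 * ‖it Φ n ψ - zs ψ‖) atTop (𝓝 0) := by
        have := (tendsto_iff_norm_sub_tendsto_zero.mp (hzs ψ hψ)).const_mul (1 / 2)
        simpa using this
      refine squeeze_zero (fun _ => norm_nonneg _) (fun n => ?_) h9
      exact h2 (it Φ n ψ) (by simpa using hb n ψ hψ) (zs ψ) (by simpa using hzb ψ hψ) ψ hψ
    exact tendsto_nhds_unique h8 h7
  refine ⟨zs, ?_, ?_⟩
  · exact hu.tendstoLocallyUniformlyOn.differentiableOn (Eventually.of_forall hd) hU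
  · intro ψ hψ
    refine ⟨hzb ψ hψ, hfix ψ hψ, ?_⟩
    intro z hz hz2
    have h10 := h2 z (by simpa using hz) (zs ψ) (by simpa using hzb ψ hψ) ψ hψ
    rw [hz2, hfix ψ hψ] at h10
    have h11 : ‖z - zs ψ‖ ≤ 0 := by linarith
    have h12 := norm_le_zero_iff.mp h11
    exact sub_eq_zero.mp h12

end Pool.Agent.W19.HTFix
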